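import Pool.Agent.NH62.Greedy.HaarMain

/-!
# `L_p[0,1]` has an equivalent norm for which the Haar system is 1-greedy

For every `1 < p < ∞`, `p ≠ 2`, and real or complex scalars there is a norm on `L_p[0,1]`,
equivalent to the usual one, for which the `L_p`-normalised Haar system is `1`-greedy.  In
particular (a norm is an `s`-norm for all `0 < s ≤ 1`) there is an equivalent `s`-norm with this
property, for every `0 < s < 1`.
-/

set_option autoImplicit false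

namespace Pool.Agent.Results.MP_877d49_an.OneGreedyRenorming

open Finset MeasureTheory Filter Topology Pool.Agent.NH62.Greedy
open scoped ENNReal

/-- Lebesgue measure on the unit interval. -/
noncomputable abbrev lebUnit : Measure ℝ := volume.restrict (Set.Icc (0:ℝ) 1)

/-- The indicator function of `[a, b)`. -/
noncomputable def ind (a b x : ℝ) : ℝ := (Set.Ico a b).indicator (fun _ => 1) x

/-- The Haar function of level `n` and position `k` (`0 ≤ k < 2 ^ n`), namely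
`2 ^ (n / p) * (1_[k / 2 ^ n, (k + 1/2) / 2 ^ n) - 1_[(k + 1/2) / 2 ^ n, (k+1) / 2 ^ n))`. -/
noncomputable def haarNK (p : ℝ) (n k : ℕ) (x : ℝ) : ℝ :=
  (2:ℝ) ^ ((n : ℝ) / p) *
    (ind ((k : ℝ) / 2 ^ n) (((k : ℝ) + 1 / 2) / 2 ^ n) x -
      ind (((k : ℝ) + 1 / 2) / 2 ^ n) (((k : ℝ) + 1) / 2 ^ n) x)

/-- The `L_p`-normalised Haar functions, enumerated by `ℕ`: `haar p 0` is the indicator of
`[0,1)`; for `j ≥ 1` write `j = 2 ^ n + k` with `n = Nat.log 2 j` and `0 ≤ k < 2 ^ n`, then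
`haar p j` is the Haar function of level `n` and position `k`. -/
noncomputable def haar (p : ℝ) (j : ℕ) (x : ℝ) : ℝ :=
  if j = 0 then ind 0 1 x else haarNK p (Nat.log 2 j) (j - 2 ^ Nat.log 2 j) x

theorem haar_memLp (𝕜 : Type) [RCLike 𝕜] (p : ℝ≥0∞) (j : ℕ) :
    MemLp (fun x => ((haar p.toReal j x : ℝ) : 𝕜)) p lebUnit := by
  apply MemLp.of_bound (C := 1 + 2 * (2:ℝ) ^ ((Nat.log 2 j : ℝ) / p.toReal))
  · exact (RCLike.measurable_ofReal.comp (haarFn_meas p.toReal j)).aestronglyMeasurable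
  · apply Eventually.of_forall
    intro x
    rw [RCLike.norm_ofReal]
    exact haarFn_bound p.toReal j x

/-- The Haar functions as elements of `L_p[0,1]` over the field `𝕜`. -/
noncomputable def haarLp (𝕜 : Type) [RCLike 𝕜] (p : ℝ≥0∞) (j : ℕ) : Lp 𝕜 p lebUnit :=
  (haar_memLp 𝕜 p j).toLp (fun x => ((haar p.toReal j x : ℝ) : 𝕜))

/-- The finite combination `∑ j ∈ A, a j • h_j`. -/
noncomputable def haarSum {𝕜 : Type} [RCLike 𝕜] (p : ℝ≥0∞) (A : Finset ℕ) (a : ℕ → 𝕜) :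
    Lp 𝕜 p lebUnit := ∑ j ∈ A, a j • haarLp 𝕜 p j

/-- `f = ∑ j, a j • h_j`, the partial sums (in the order of the enumeration) converging in norm. -/
def IsExpansion {𝕜 : Type} [RCLike 𝕜] (p : ℝ≥0∞) [Fact (1 ≤ p)] (f : Lp 𝕜 p lebUnit)
    (a : ℕ → 𝕜) : Prop :=
  Tendsto (fun n => haarSum p (range n) a) atTop (𝓝 f)

/-- `N` is an `s`-norm on `L_p[0,1]` (a norm if `s = 1`). -/
def IsSNorm {𝕜 : Type} [RCLike 𝕜] (p : ℝ≥0∞) (s : ℝ) (N : Lp 𝕜 p lebUnit → ℝ) : Prop :=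
  (∀ f, 0 ≤ N f) ∧ (∀ f, N f = 0 ↔ f = 0) ∧ (∀ (c : 𝕜) f, N (c • f) = ‖c‖ * N f) ∧
  ∀ f g, N (f + g) ^ s ≤ N f ^ s + N g ^ s

/-- `N` is equivalent to the usual norm of `L_p[0,1]`. -/
def IsEquiv {𝕜 : Type} [RCLike 𝕜] (p : ℝ≥0∞) (N : Lp 𝕜 p lebUnit → ℝ) : Prop :=
  ∃ c C : ℝ, 0 < c ∧ ∀ f, c * ‖f‖ ≤ N f ∧ N f ≤ C * ‖f‖

/-- `A` is a greedy set for the coefficients `a`. -/
def IsGreedySet {𝕜 : Type} [RCLike 𝕜] (a : ℕ → 𝕜) (A : Finset ℕ) : Prop :=
  ∀ i ∈ A, ∀ j, j ∉ A → ‖a j‖ ≤ ‖a i‖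

/-- The Haar system is `1`-greedy with respect to `N`: for every `f` with expansion `a`, every
nonempty finite greedy set `A` for `f`, and every combination `∑ j ∈ B, b j • h_j` with
`|B| ≤ |A|`, `N (f - G_A f) ≤ N (f - ∑ j ∈ B, b j • h_j)`. -/
def OneGreedy {𝕜 : Type} [RCLike 𝕜] (p : ℝ≥0∞) [Fact (1 ≤ p)] (N : Lp 𝕜 p lebUnit → ℝ) : Prop :=
  ∀ (f : Lp 𝕜 p lebUnit) (a : ℕ → 𝕜), IsExpansion p f a →
    ∀ A : Finset ℕ, A.Nonempty → IsGreedySet a A →
      ∀ (B : Finset ℕ) (b : ℕ → 𝕜), B.card ≤ A.card →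
        N (f - haarSum p A a) ≤ N (f - haarSum p B b)

/-- The statement for the field `𝕜` and the exponent `p`. -/
def Statement (𝕜 : Type) [RCLike 𝕜] (p : ℝ≥0∞) [Fact (1 ≤ p)] : Prop :=
  (∀ f : Lp 𝕜 p lebUnit, ∃! a : ℕ → 𝕜, IsExpansion p f a) ∧
  ∃ N : Lp 𝕜 p lebUnit → ℝ, (∀ s : ℝ, 0 < s → s ≤ 1 → IsSNorm p s N) ∧ IsEquiv p N ∧
    OneGreedy p N

theorem haarLp_eq (p : ℝ≥0∞) [Fact (1 ≤ p)] (j : ℕ) :
    haarLp ℂ p j = hn leb p mp_id.measurable j := by
  apply Lp.ext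
  have h1 : ∀ᵐ x ∂leb, (haarLp ℂ p j) x = ((haarFn p.toReal j x : ℝ) : ℂ) :=
    MemLp.coeFn_toLp (haar_memLp ℂ p j)
  have h2 : ∀ᵐ x ∂leb, (hn leb p mp_id.measurable j) x =
      ((H75R3.wt j ^ (1 / p.toReal) : ℝ) : ℂ) * H75R3.hr j x := by
    unfold hn
    filter_upwards [Lp.coeFn_smul ((H75R3.wt j ^ (1 / p.toReal) : ℝ) : ℂ)
      (H75R3.eh leb p mp_id.measurable j), H75R3.eh_coe (μ := leb) (p := p) mp_id.measurable j]
      with x hx1 hx2
    rw [hx1, Pi.smul_apply, hx2, smul_eq_mul]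
  filter_upwards [h1, h2, ae_Ico] with x hx1 hx2 hx3
  rw [hx1, hx2]
  exact haarFn_eq j hx3

theorem coeff {p : ℝ≥0∞} [Fact (1 ≤ p)] {f : Lp ℂ p lebUnit} {a : ℕ → ℂ}
    (h : IsExpansion p f a) (m : ℕ) : pn leb p mp_id.measurable m f = a m := by
  have h1 : Tendsto (fun n => pn leb p mp_id.measurable m (∑ j ∈ range n, a j • haarLp ℂ p j))
      atTop (𝓝 (pn leb p mp_id.measurable m f)) :=
    ((pn leb p mp_id.measurable m).continuous.tendsto f).comp h
  have h2 : ∀ n, m < n → pn leb p mp_id.measurable m (∑ j ∈ range n, a j • haarLp ℂ p j) = a m := by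
    intro n hn
    rw [map_sum, Finset.sum_eq_single m]
    · rw [map_smul, haarLp_eq, pn_hn mp_id, if_pos rfl, smul_eq_mul, mul_one]
    · intro k _ hk
      rw [map_smul, haarLp_eq, pn_hn mp_id, if_neg (Ne.symm hk), smul_zero]
    · intro h
      exact absurd (Finset.mem_range.2 hn) h
  apply tendsto_nhds_unique h1
  apply tendsto_const_nhds.congr'
  filter_upwards [eventually_gt_atTop m] with n hn
  exact (h2 n hn).symm

theorem complex_statement (p : ℝ≥0∞) [Fact (1 ≤ p)] (h1 : 1 < p) (hpt : p ≠ ∞) (h2 : p ≠ 2) :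
    Statement ℂ p := by
  obtain ⟨C, H⟩ := exists_HB_unit h1 hpt h2
  obtain ⟨N, hN1, hN2, ⟨a, b, ha, hab⟩, hN4⟩ := complex_case mp_id h1 hpt H
  have hexp : ∀ f : Lp ℂ p lebUnit,
      IsExpansion p f (fun j => pn leb p mp_id.measurable j f) := by
    intro f
    have e1 : (fun m => H75R3.ph leb p mp_id.measurable m f • H75R3.eh leb p mp_id.measurable m) =
        fun m => pn leb p mp_id.measurable m f • haarLp ℂ p m := by
      funext m
      rw [haarLp_eq, pn_smul_hn]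
    have := H.expand f
    rw [e1] at this
    exact this.tendsto_sum_nat
  refine ⟨?_, N, ?_, ⟨a, b, ha, hab⟩, ?_⟩
  · intro f
    refine ⟨fun j => pn leb p mp_id.measurable j f, hexp f, ?_⟩
    intro c hc
    funext m
    exact (coeff hc m).symm
  · have hN0 : ∀ f, 0 ≤ N f := fun f =>
      le_trans (mul_nonneg ha.le (norm_nonneg _)) (hab f).1
    intro s hs0 hs1
    refine ⟨hN0, ?_, hN2, ?_⟩
    · intro f
      constructor
      · intro h
        have := (hab f).1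
        rw [h] at this
        have h3 : ‖f‖ ≤ 0 := by
          by_contra hc
          push Not at hc
          nlinarith
        exact norm_le_zero_iff.1 h3
      · intro h
        have := hN2 0 f
        rw [zero_smul, norm_zero, zero_mul] at this
        rw [h, this]
    · intro f g
      refine (Real.rpow_le_rpow (hN0 _) (hN1 f g) hs0.le).trans ?_
      exact Real.rpow_add_le_add_rpow (hN0 f) (hN0 g) hs0.le hs1
  · intro f c hc A _ hA B d hBA
    have h5 := hN4 f A (by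
      intro i hi j hj
      rw [coeff hc, coeff hc]
      exact hA i hi j hj) B d hBA
    have e1 : ∑ j ∈ A, pn leb p mp_id.measurable j f • hn leb p mp_id.measurable j =
        ∑ j ∈ A, c j • haarLp ℂ p j :=
      Finset.sum_congr rfl (fun j _ => by rw [coeff hc, haarLp_eq])
    have e2 : ∑ j ∈ B, d j • hn leb p mp_id.measurable j = ∑ j ∈ B, d j • haarLp ℂ p j :=
      Finset.sum_congr rfl (fun j _ => by rw [haarLp_eq])
    rw [e1, e2] at h5
    exact h5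

/-- Complexification of a real element. -/
noncomputable def cx (p : ℝ≥0∞) [Fact (1 ≤ p)] : Lp ℝ p lebUnit →L[ℝ] Lp ℂ p lebUnit :=
  Complex.ofRealCLM.compLpL p lebUnit

/-- Real part. -/
noncomputable def rp (p : ℝ≥0∞) [Fact (1 ≤ p)] : Lp ℂ p lebUnit →L[ℝ] Lp ℝ p lebUnit :=
  Complex.reCLM.compLpL p lebUnit

theorem cx_coe (p : ℝ≥0∞) [Fact (1 ≤ p)] (f : Lp ℝ p lebUnit) :
    ∀ᵐ x ∂lebUnit, (cx p f) x = ((f x : ℝ) : ℂ) :=
  ContinuousLinearMap.coeFn_compLpL Complex.ofRealCLM f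

theorem rp_coe (p : ℝ≥0∞) [Fact (1 ≤ p)] (f : Lp ℂ p lebUnit) :
    ∀ᵐ x ∂lebUnit, (rp p f) x = (f x).re :=
  ContinuousLinearMap.coeFn_compLpL Complex.reCLM f

theorem norm_cx (p : ℝ≥0∞) [Fact (1 ≤ p)] (f : Lp ℝ p lebUnit) : ‖cx p f‖ = ‖f‖ := by
  rw [Lp.norm_def, Lp.norm_def]
  congr 1
  apply eLpNorm_congr_norm_ae
  filter_upwards [cx_coe p f] with x hx
  rw [hx, Complex.norm_real]

theorem rp_cx (p : ℝ≥0∞) [Fact (1 ≤ p)] (f : Lp ℝ p lebUnit) : rp p (cx p f) = f := by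
  apply Lp.ext
  filter_upwards [cx_coe p f, rp_coe p (cx p f)] with x hx hx2
  rw [hx2, hx, Complex.ofReal_re]

theorem cx_haar (p : ℝ≥0∞) [Fact (1 ≤ p)] (j : ℕ) : cx p (haarLp ℝ p j) = haarLp ℂ p j := by
  apply Lp.ext
  have h1 : ∀ᵐ x ∂leb, (haarLp ℂ p j) x = ((haarFn p.toReal j x : ℝ) : ℂ) :=
    MemLp.coeFn_toLp (haar_memLp ℂ p j)
  have h2 : ∀ᵐ x ∂leb, (haarLp ℝ p j) x = haarFn p.toReal j x :=
    MemLp.coeFn_toLp (haar_memLp ℝ p j)
  filter_upwards [cx_coe p (haarLp ℝ p j), h1, h2] with x hx hx1 hx2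
  rw [hx, hx1, hx2]

theorem cx_smul (p : ℝ≥0∞) [Fact (1 ≤ p)] (c : ℝ) (f : Lp ℝ p lebUnit) :
    cx p (c • f) = (c : ℂ) • cx p f := by
  rw [map_smul]
  apply Lp.ext
  filter_upwards [Lp.coeFn_smul c (cx p f), Lp.coeFn_smul (c : ℂ) (cx p f)] with x h1 h2
  rw [h1, h2, Pi.smul_apply, Pi.smul_apply, Complex.real_smul, smul_eq_mul]

theorem cx_sum (p : ℝ≥0∞) [Fact (1 ≤ p)] (A : Finset ℕ) (a : ℕ → ℝ) :
    cx p (haarSum p A a) = haarSum p A (fun j => (a j : ℂ)) := by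
  unfold haarSum
  rw [map_sum]
  exact Finset.sum_congr rfl (fun j _ => by rw [cx_smul, cx_haar])

theorem cx_expansion {p : ℝ≥0∞} [Fact (1 ≤ p)] {f : Lp ℝ p lebUnit} {a : ℕ → ℝ}
    (h : IsExpansion p f a) : IsExpansion p (cx p f) (fun j => (a j : ℂ)) := by
  have h1 : Tendsto (fun n => cx p (haarSum p (range n) a)) atTop (𝓝 (cx p f)) :=
    ((cx p).continuous.tendsto f).comp h
  simp only [cx_sum] at h1
  exact h1

theorem rp_smul_haar (p : ℝ≥0∞) [Fact (1 ≤ p)] (c : ℂ) (j : ℕ) :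
    rp p (c • haarLp ℂ p j) = c.re • haarLp ℝ p j := by
  apply Lp.ext
  have h1 : ∀ᵐ x ∂leb, (haarLp ℂ p j) x = ((haarFn p.toReal j x : ℝ) : ℂ) :=
    MemLp.coeFn_toLp (haar_memLp ℂ p j)
  have h2 : ∀ᵐ x ∂leb, (haarLp ℝ p j) x = haarFn p.toReal j x :=
    MemLp.coeFn_toLp (haar_memLp ℝ p j)
  filter_upwards [rp_coe p (c • haarLp ℂ p j), h1, h2, Lp.coeFn_smul c (haarLp ℂ p j),
    Lp.coeFn_smul c.re (haarLp ℝ p j)] with x hx hx1 hx2 hx3 hx4
  rw [hx, hx3, hx4, Pi.smul_apply, Pi.smul_apply, hx1, hx2, smul_eq_mul, smul_eq_mul,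
    Complex.re_mul_ofReal]

theorem rp_expansion {p : ℝ≥0∞} [Fact (1 ≤ p)] {f : Lp ℂ p lebUnit} {a : ℕ → ℂ}
    (h : IsExpansion p f a) : IsExpansion p (rp p f) (fun j => (a j).re) := by
  have h1 : Tendsto (fun n => rp p (∑ j ∈ range n, a j • haarLp ℂ p j)) atTop (𝓝 (rp p f)) :=
    ((rp p).continuous.tendsto f).comp h
  simp only [map_sum, rp_smul_haar] at h1
  exact h1

theorem real_statement (p : ℝ≥0∞) [Fact (1 ≤ p)] (H : Statement ℂ p) : Statement ℝ p := by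
  obtain ⟨H1, N, H2, ⟨c, C, hc, h5⟩, H3⟩ := H
  refine ⟨?_, fun f => N (cx p f), ?_, ⟨c, C, hc, ?_⟩, ?_⟩
  · intro f
    obtain ⟨a, ha, -⟩ := H1 (cx p f)
    refine ⟨fun j => (a j).re, ?_, ?_⟩
    · have := rp_expansion ha
      rw [rp_cx] at this
      exact this
    · intro b hb
      obtain ⟨a', -, hu⟩ := H1 (cx p f)
      have e1 := hu _ (cx_expansion hb)
      have e2 := hu _ ha
      funext j
      have e3 : ((b j : ℝ) : ℂ) = a j := congrFun (e1.trans e2.symm) j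
      show b j = (a j).re
      rw [← e3, Complex.ofReal_re]
  · intro s hs0 hs1
    obtain ⟨h1, h2, h3, h4⟩ := H2 s hs0 hs1
    refine ⟨fun f => h1 _, ?_, ?_, ?_⟩
    · intro f
      rw [h2]
      constructor
      · intro h
        rw [← rp_cx p f, h, map_zero]
      · intro h
        rw [h, map_zero]
    · intro c f
      show N (cx p (c • f)) = ‖c‖ * N (cx p f)
      rw [cx_smul, h3, Complex.norm_real]
    · intro f g
      show N (cx p (f + g)) ^ s ≤ N (cx p f) ^ s + N (cx p g) ^ s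
      rw [map_add]
      exact h4 _ _
  · intro f
    have := h5 (cx p f)
    rw [norm_cx] at this
    exact this
  · intro f a ha A hAn hA B b hBA
    have h1 := H3 (cx p f) (fun j => (a j : ℂ)) (cx_expansion ha) A hAn (by
      intro i hi j hj
      rw [Complex.norm_real, Complex.norm_real]
      exact hA i hi j hj) B (fun j => (b j : ℂ)) hBA
    rw [← cx_sum, ← cx_sum, ← map_sub, ← map_sub] at h1
    exact h1

/-- For `1 < p < ∞`, `p ≠ 2`, and real or complex scalars, `L_p[0,1]` has an equivalent norm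
(hence an equivalent `s`-norm for every `0 < s ≤ 1`) for which the Haar system is `1`-greedy. -/
theorem result (p : ℝ≥0∞) [Fact (1 ≤ p)] (h1 : 1 < p) (hpt : p ≠ ∞) (h2 : p ≠ 2) :
    Statement ℝ p ∧ Statement ℂ p :=
  ⟨real_statement p (complex_statement p h1 hpt h2), complex_statement p h1 hpt h2⟩

end Pool.Agent.Results.MP_877d49_an.OneGreedyRenorming
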